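import Mathlib

/-!
# Project CD (MP_d3947f_pr): the diameter of random cubical graphs is n + m_p

Definitions and the exact statements of all pieces.
-/

namespace R467CD

open Finset Filter Topology

/-! ## Product Bernoulli probability on finitely many coins -/

section Lib

variable {ι : Type} [Fintype ι]

/-- Probability weight of a coin configuration: coin `i` shows `true` with probability `r i`,
independently. -/
noncomputable def wt (r : ι → ℝ) (ω : ι → Bool) : ℝ := ∏ i, (if ω i = true then r i else 1 - r i)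

open Classical in
/-- Expectation of `f`. -/
noncomputable def Ex (r : ι → ℝ) (f : (ι → Bool) → ℝ) : ℝ := ∑ ω : ι → Bool, wt r ω * f ω

/-- Probability of the event `A`. -/
noncomputable def Pr (r : ι → ℝ) (A : Set (ι → Bool)) : ℝ := Ex r (A.indicator (fun _ => (1 : ℝ)))

/-- `f` depends only on the coins in `X`. -/
def Dep {β : Type} (X : Set ι) (f : (ι → Bool) → β) : Prop :=
  ∀ ω ω' : ι → Bool, (∀ i ∈ X, ω i = ω' i) → f ω = f ω'

/-- The event `A` is increasing. -/
def Incr (A : Set (ι → Bool)) : Prop :=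
  ∀ ω ω' : ι → Bool, (∀ i, ω i = true → ω' i = true) → ω ∈ A → ω' ∈ A

/-- The event `A` is decreasing. -/
def Decr (A : Set (ι → Bool)) : Prop :=
  ∀ ω ω' : ι → Bool, (∀ i, ω i = true → ω' i = true) → ω' ∈ A → ω ∈ A

end Lib

/-! ## The model -/

/-- Vertices of the `n`-cube. -/
abbrev Vt (n : ℕ) := Fin n → Bool

/-- The coins: one for each vertex of the cube, one for each unordered pair of vertices
(only the pairs that are edges of the cube are used). -/
abbrev Coin (n : ℕ) := Vt n ⊕ Sym2 (Vt n)

/-- Success probabilities of the coins. -/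
def rr (pv pe : ℝ) (n : ℕ) : Coin n → ℝ := Sum.elim (fun _ => pv) (fun _ => pe)

/-- Flip coordinate `i`. -/
def fl {n : ℕ} (v : Vt n) (i : Fin n) : Vt n := Function.update v i (!(v i))

/-- The antipode. -/
def anti {n : ℕ} (v : Vt n) : Vt n := fun i => !(v i)

/-- The random cubical graph. -/
def hG {n : ℕ} (ω : Coin n → Bool) : SimpleGraph (Vt n) where
  Adj x y := hammingDist x y = 1 ∧ ω (Sum.inl x) = true ∧ ω (Sum.inl y) = true ∧
    ω (Sum.inr s(x, y)) = true
  symm := ⟨by
    intro x y h
    refine ⟨by rw [hammingDist_comm]; exact h.1, h.2.2.1, h.2.1, ?_⟩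
    rw [Sym2.eq_swap]; exact h.2.2.2⟩
  loopless := ⟨by
    intro x h
    have := h.1
    simp at this⟩

/-- The diameter `D(h_n)`: the largest distance between two vertices of `h_n`
in the same component. -/
noncomputable def D {n : ℕ} (ω : Coin n → Bool) : ℕ :=
  sSup {d : ℕ | ∃ x y : Vt n, ω (Sum.inl x) = true ∧ ω (Sum.inl y) = true ∧
    (hG ω).Reachable x y ∧ d = (hG ω).dist x y}

/-- The direction `i` is open at `v`: the neighbour `fl v i` is present and the edge is on. -/
def opn {n : ℕ} (ω : Coin n → Bool) (v : Vt n) (i : Fin n) : Prop :=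
  ω (Sum.inl (fl v i)) = true ∧ ω (Sum.inr s(v, fl v i)) = true

open Classical in
/-- The number of open directions at `v`. -/
noncomputable def dg {n : ℕ} (ω : Coin n → Bool) (v : Vt n) : ℕ :=
  (Finset.univ.filter (fun i => opn ω v i)).card

/-- `v` is low: it has fewer than `ε n` open directions. -/
def low {n : ℕ} (ε : ℝ) (ω : Coin n → Bool) (v : Vt n) : Prop := (dg ω v : ℝ) < ε * n

/-- `GP ω a b`: there is a geodesic of the cube from `a` to `b` all of whose edges are on and all
of whose vertices except possibly `a` are present. -/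
inductive GP {n : ℕ} (ω : Coin n → Bool) : Vt n → Vt n → Prop
  | nil (a : Vt n) : GP ω a a
  | step (a b : Vt n) (j : Fin n) : a j ≠ b j → ω (Sum.inr s(a, fl a j)) = true →
      ω (Sum.inl (fl a j)) = true → GP ω (fl a j) b → GP ω a b

/-- `mix S a b` has the `S`-coordinates of `a` and the other coordinates of `b`. -/
def mix {n : ℕ} (S : Finset (Fin n)) (a b : Vt n) : Vt n := fun i => if i ∈ S then a i else b i

/-- The try with markers `i, l` (in `S`) and `j, l'` (outside `S`):
`fl u i → fl (fl u i) l → mid → fl (fl w j) l' → fl w j`. -/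
def Try {n : ℕ} (ω : Coin n → Bool) (u w : Vt n) (S : Finset (Fin n)) (i l j l' : Fin n) : Prop :=
  ω (Sum.inr s(fl u i, fl (fl u i) l)) = true ∧ ω (Sum.inl (fl (fl u i) l)) = true ∧
  GP ω (fl (fl u i) l) (mix S (fl (fl u i) l) (fl (fl w j) l')) ∧
  GP ω (mix S (fl (fl u i) l) (fl (fl w j) l')) (fl (fl w j) l') ∧
  ω (Sum.inr s(fl (fl w j) l', fl w j)) = true

/-! ## Bad events -/

/-- More than `m` low vertices near a pair of almost antipodal vertices. -/
def EvBad (n : ℕ) (ε : ℝ) (m c : ℕ) : Set (Coin n → Bool) :=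
  {ω | ∃ u w : Vt n, n ≤ hammingDist u w + c ∧
    ∃ W : Finset (Vt n), (∀ v ∈ W, (hammingDist u v ≤ m ∨ hammingDist w v ≤ m) ∧ low ε ω v) ∧
      m < W.card}

/-- Two present vertices that are not low, and not well connected. -/
def EvDisc (n : ℕ) (ε : ℝ) (c : ℕ) : Set (Coin n → Bool) :=
  {ω | ∃ u w : Vt n, ω (Sum.inl u) = true ∧ ω (Sum.inl w) = true ∧ ¬ low ε ω u ∧ ¬ low ε ω w ∧
    ¬ ((∃ p : (hG ω).Walk u w, p.length ≤ hammingDist u w + 8) ∧
      (n ≤ hammingDist u w + c → ∃ p : (hG ω).Walk u w, p.length ≤ hammingDist u w))}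

/-- The path `x_0, x_1, ...` : `xs x t j` is `x` with the coordinates `t 0, ..., t (j-1)` flipped. -/
def xs {n m : ℕ} (x : Vt n) (t : Fin m → Fin n) : ℕ → Vt n
  | 0 => x
  | j + 1 => if h : j < m then fl (xs x t j) (t ⟨j, h⟩) else xs x t j

/-- The forced pendant path event for `(x, t)`, `t` injective: all `x_0, ..., x_m` and the antipode
of `x_m` are present, the edges `x_j x_{j+1}` are on, and all other directions at
`x_0, ..., x_{m-1}` are closed. -/
def Pend {n m : ℕ} (x : Vt n) (t : Fin m → Fin n) : Set (Coin n → Bool) :=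
  {ω | (∀ j ≤ m, ω (Sum.inl (xs x t j)) = true) ∧ ω (Sum.inl (anti (xs x t m))) = true ∧
    (∀ j < m, ω (Sum.inr s(xs x t j, xs x t (j + 1))) = true) ∧
    (∀ j < m, ∀ i : Fin n, fl (xs x t j) i ≠ xs x t (j + 1) →
      (∀ k, k + 1 = j → fl (xs x t j) i ≠ xs x t k) → ¬ opn ω (xs x t j) i)}

end R467CD
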