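import Pool.Agent.R467.CD.Defs

/-!
# Project CD (MP_d3947f_pr): exact statements of the pieces
-/

namespace R467CD

open Finset Filter Topology

/-- Library facts about the finite product Bernoulli probability (all elementary). -/
structure LibFacts : Prop where
  ex_const : ∀ (ι : Type) [Fintype ι] (r : ι → ℝ) (c : ℝ), Ex r (fun _ => c) = c
  ex_mono : ∀ (ι : Type) [Fintype ι] (r : ι → ℝ), (∀ i, 0 ≤ r i ∧ r i ≤ 1) →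
    ∀ f g : (ι → Bool) → ℝ, (∀ ω, f ω ≤ g ω) → Ex r f ≤ Ex r g
  ex_mul_const : ∀ (ι : Type) [Fintype ι] (r : ι → ℝ) (f : (ι → Bool) → ℝ) (c : ℝ),
    Ex r (fun ω => f ω * c) = Ex r f * c
  ex_sum : ∀ (ι : Type) [Fintype ι] (r : ι → ℝ) (K : Type) (s : Finset K)
    (f : K → (ι → Bool) → ℝ), Ex r (fun ω => ∑ k ∈ s, f k ω) = ∑ k ∈ s, Ex r (f k)
  /-- product formula for functions of disjoint sets of coins -/
  ex_prod : ∀ (ι : Type) [Fintype ι] (r : ι → ℝ) (K : Type) (s : Finset K) (X : K → Set ι)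
    (f : K → (ι → Bool) → ℝ), (∀ k ∈ s, Dep (X k) (f k)) →
    (∀ k ∈ s, ∀ k' ∈ s, k ≠ k' → Disjoint (X k) (X k')) →
    Ex r (fun ω => ∏ k ∈ s, f k ω) = ∏ k ∈ s, Ex r (f k)
  /-- the expectation of a function of one or two coins -/
  ex_coin : ∀ (ι : Type) [Fintype ι] (r : ι → ℝ) (i : ι) (g : Bool → ℝ),
    Ex r (fun ω => g (ω i)) = r i * g true + (1 - r i) * g false
  pr_coin : ∀ (ι : Type) [Fintype ι] (r : ι → ℝ) (i : ι), Pr r {ω | ω i = true} = r i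
  pr_nonneg : ∀ (ι : Type) [Fintype ι] (r : ι → ℝ), (∀ i, 0 ≤ r i ∧ r i ≤ 1) →
    ∀ A : Set (ι → Bool), 0 ≤ Pr r A
  pr_le_one : ∀ (ι : Type) [Fintype ι] (r : ι → ℝ), (∀ i, 0 ≤ r i ∧ r i ≤ 1) →
    ∀ A : Set (ι → Bool), Pr r A ≤ 1
  pr_mono : ∀ (ι : Type) [Fintype ι] (r : ι → ℝ), (∀ i, 0 ≤ r i ∧ r i ≤ 1) →
    ∀ A B : Set (ι → Bool), A ⊆ B → Pr r A ≤ Pr r B
  pr_compl : ∀ (ι : Type) [Fintype ι] (r : ι → ℝ) (A : Set (ι → Bool)), Pr r Aᶜ = 1 - Pr r A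
  /-- union bound -/
  pr_union : ∀ (ι : Type) [Fintype ι] (r : ι → ℝ), (∀ i, 0 ≤ r i ∧ r i ≤ 1) →
    ∀ (K : Type) (s : Finset K) (A : K → Set (ι → Bool)),
    Pr r {ω | ∃ k ∈ s, ω ∈ A k} ≤ ∑ k ∈ s, Pr r (A k)
  /-- union of pairwise disjoint events -/
  pr_disj : ∀ (ι : Type) [Fintype ι] (r : ι → ℝ) (K : Type) (s : Finset K)
    (A : K → Set (ι → Bool)), (∀ k ∈ s, ∀ k' ∈ s, k ≠ k' → Disjoint (A k) (A k')) →
    Pr r {ω | ∃ k ∈ s, ω ∈ A k} = ∑ k ∈ s, Pr r (A k)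
  /-- independence -/
  pr_inter : ∀ (ι : Type) [Fintype ι] (r : ι → ℝ) (A B : Set (ι → Bool)) (X Y : Set ι),
    Dep X (fun ω => ω ∈ A) → Dep Y (fun ω => ω ∈ B) → Disjoint X Y →
    Pr r (A ∩ B) = Pr r A * Pr r B
  pr_iInter : ∀ (ι : Type) [Fintype ι] (r : ι → ℝ) (K : Type) (s : Finset K)
    (A : K → Set (ι → Bool)) (X : K → Set ι), (∀ k ∈ s, Dep (X k) (fun ω => ω ∈ A k)) →
    (∀ k ∈ s, ∀ k' ∈ s, k ≠ k' → Disjoint (X k) (X k')) →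
    Pr r {ω | ∀ k ∈ s, ω ∈ A k} = ∏ k ∈ s, Pr r (A k)
  /-- Harris inequality for families of increasing and of decreasing events -/
  harris_incr : ∀ (ι : Type) [Fintype ι] (r : ι → ℝ), (∀ i, 0 ≤ r i ∧ r i ≤ 1) →
    ∀ (K : Type) (s : Finset K) (A : K → Set (ι → Bool)), (∀ k ∈ s, Incr (A k)) →
    ∏ k ∈ s, Pr r (A k) ≤ Pr r {ω | ∀ k ∈ s, ω ∈ A k}
  harris_decr : ∀ (ι : Type) [Fintype ι] (r : ι → ℝ), (∀ i, 0 ≤ r i ∧ r i ≤ 1) →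
    ∀ (K : Type) (s : Finset K) (A : K → Set (ι → Bool)), (∀ k ∈ s, Decr (A k)) →
    ∏ k ∈ s, Pr r (A k) ≤ Pr r {ω | ∀ k ∈ s, ω ∈ A k}
  /-- second moment inequality -/
  cheby : ∀ (ι : Type) [Fintype ι] (r : ι → ℝ), (∀ i, 0 ≤ r i ∧ r i ≤ 1) →
    ∀ (K : Type) (s : Finset K) (A : K → Set (ι → Bool)),
    Pr r {ω | ∀ k ∈ s, ω ∉ A k} * (∑ k ∈ s, Pr r (A k)) ^ 2 ≤
      ∑ k ∈ s, ∑ l ∈ s, (Pr r (A k ∩ A l) - Pr r (A k) * Pr r (A l))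

open Classical in
/-- Hamming balls are small. -/
def BallStm : Prop := ∀ (n r : ℕ) (u : Vt n),
  (Finset.univ.filter (fun v : Vt n => hammingDist u v ≤ r)).card ≤ (n + 1) ^ r

/-- GREEDY: an open geodesic exists with probability bounded below. -/
def GreedyStm : Prop := ∀ pv pe : ℝ, 0 < pv → pv ≤ 1 → 0 < pe → pe ≤ 1 →
  ∃ c0 : ℝ, 0 < c0 ∧ c0 ≤ 1 ∧ ∀ (n : ℕ) (a b : Vt n), c0 ≤ Pr (rr pv pe n) {ω | GP ω a b}

/-- Admissible data for the tries. -/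
structure Adm {n : ℕ} (u w : Vt n) (S I L : Finset (Fin n)) (σ τ : Fin n → Fin n) : Prop where
  hI : I ⊆ S
  hL : L ⊆ S
  hIL : Disjoint I L
  hσ : Set.InjOn σ I
  hτ : Set.InjOn τ L
  hσS : ∀ i ∈ I, σ i ∉ S
  hτS : ∀ l ∈ L, τ l ∉ S
  hστ : ∀ i ∈ I, ∀ l ∈ L, σ i ≠ τ l
  pureI : (∀ i ∈ I, u i ≠ w i) ∨ (∀ i ∈ I, u i = w i)
  pureL : (∀ l ∈ L, u l ≠ w l) ∨ (∀ l ∈ L, u l = w l)

/-- DISJ: the coin set of a try. -/
def Z1 {n : ℕ} (u w : Vt n) (S : Finset (Fin n)) (i l j l' : Fin n) : Set (Vt n) :=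
  {v | (∀ k ∈ S, v k = fl (fl u i) l k) ∧
    ∀ k, v k = fl (fl u i) l k ∨ v k = fl (fl w j) l' k}

def Z2 {n : ℕ} (u w : Vt n) (S : Finset (Fin n)) (i l j l' : Fin n) : Set (Vt n) :=
  {v | (∀ k, k ∉ S → v k = fl (fl w j) l' k) ∧
    ∀ k, v k = fl (fl u i) l k ∨ v k = fl (fl w j) l' k}

def tryCoins {n : ℕ} (u w : Vt n) (S : Finset (Fin n)) (i l j l' : Fin n) : Set (Coin n) :=
  {k | (∃ v ∈ Z1 u w S i l j l' ∪ Z2 u w S i l j l', k = Sum.inl v) ∨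
    (∃ v ∈ Z1 u w S i l j l' ∪ Z2 u w S i l j l', ∃ v' ∈ Z1 u w S i l j l' ∪ Z2 u w S i l j l',
      k = Sum.inr s(v, v')) ∨
    k = Sum.inr s(fl u i, fl (fl u i) l) ∨ k = Sum.inr s(fl (fl w j) l', fl w j)}

/-- DISJ: the coin sets of different tries are disjoint. -/
def DisjStm : Prop := ∀ (n : ℕ) (u w : Vt n) (S I L : Finset (Fin n)) (σ τ : Fin n → Fin n),
  Adm u w S I L σ τ → ∀ i ∈ I, ∀ l ∈ L, ∀ i' ∈ I, ∀ l' ∈ L, (i, l) ≠ (i', l') →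
  Disjoint (tryCoins u w S i l (σ i) (τ l)) (tryCoins u w S i' l' (σ i') (τ l'))

/-- TRIES: all tries fail with tiny probability. -/
def TriesStm : Prop := ∀ pv pe : ℝ, 0 < pv → pv ≤ 1 → 0 < pe → pe ≤ 1 →
  ∃ c1 : ℝ, 0 < c1 ∧ c1 < 1 ∧
    ∀ (n : ℕ) (u w : Vt n) (S I L : Finset (Fin n)) (σ τ : Fin n → Fin n),
    Adm u w S I L σ τ →
    Pr (rr pv pe n) {ω | ∀ i ∈ I, ∀ l ∈ L, ¬ Try ω u w S i l (σ i) (τ l)} ≤
      (1 - c1) ^ (I.card * L.card)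

/-- WALK: a successful try gives a walk. -/
def WalkStm : Prop := ∀ (n : ℕ) (ω : Coin n → Bool) (u w : Vt n) (S : Finset (Fin n))
  (i l j l' : Fin n), ω (Sum.inl u) = true → ω (Sum.inl w) = true → opn ω u i → opn ω w j →
  Try ω u w S i l j l' → ∃ p : (hG ω).Walk u w,
    p.length ≤ hammingDist (fl (fl u i) l) (fl (fl w j) l') + 4

/-- CHOICE: in the event `EvDisc` there are admissible data with linearly many markers for which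
all tries fail. -/
def ChoiceStm : Prop := ∀ (ε : ℝ) (c : ℕ), 0 < ε → ∃ δ : ℝ, 0 < δ ∧ ∃ n0 : ℕ, ∀ n ≥ n0,
  ∀ ω ∈ EvDisc n ε c, ∃ (u w : Vt n) (S I L : Finset (Fin n)) (σ τ : Fin n → Fin n),
    Adm u w S I L σ τ ∧ δ * n ≤ I.card ∧ δ * n ≤ L.card ∧
    ∀ i ∈ I, ∀ l ∈ L, ¬ Try ω u w S i l (σ i) (τ l)

/-- CONN: asymptotically almost surely all present vertices that are not low are well connected. -/
def ConnStm : Prop := ∀ pv pe : ℝ, 0 < pv → pv ≤ 1 → 0 < pe → pe ≤ 1 →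
  ∀ ε : ℝ, 0 < ε → ∀ c : ℕ, Tendsto (fun n => Pr (rr pv pe n) (EvDisc n ε c)) atTop (𝓝 0)

/-- LOW: probability that all vertices of a given set of `M` vertices are low. -/
def LowStm : Prop := ∀ pv pe : ℝ, 0 < pv → pv ≤ 1 → 0 < pe → pe ≤ 1 →
  ∀ ρ : ℝ, 1 - pv * pe < ρ → ρ < 1 → ∀ M : ℕ, ∃ ε > 0, ∃ C > 0, ∀ (n : ℕ) (W : Finset (Vt n)),
    W.card = M → Pr (rr pv pe n) {ω | ∀ v ∈ W, low ε ω v} ≤ C * ρ ^ (M * n)

/-- BAD: at most `m` low vertices near any pair of almost antipodal vertices. -/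
def BadStm : Prop := ∀ pv pe : ℝ, 0 < pv → pv ≤ 1 → 0 < pe → pe ≤ 1 → ∀ m : ℕ,
  (1 - pv * pe) ^ (m + 1) < 1 / 2 → ∃ ε > 0, ∀ c : ℕ,
    Tendsto (fun n => Pr (rr pv pe n) (EvBad n ε m c)) atTop (𝓝 0)

/-- UP: deterministic upper bound. -/
def UpStm : Prop := ∀ (n m : ℕ) (ε : ℝ) (ω : Coin n → Bool), m ≤ n →
  ω ∉ EvBad n ε m (8 + m) → ω ∉ EvDisc n ε (8 + m) → D ω ≤ n + m

/-- DET: deterministic lower bound. -/
def DetStm : Prop := ∀ (n m : ℕ) (ε : ℝ) (c : ℕ) (ω : Coin n → Bool) (x : Vt n)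
  (t : Fin m → Fin n), Function.Injective t → 1 ≤ m → m < n → 2 < ε * n → ω ∈ Pend x t →
  ω ∉ EvBad n ε m c → ω ∉ EvDisc n ε c → n + m ≤ D ω

/-- PEND1: lower bound for the probability of a forced pendant path. -/
def Pend1Stm : Prop := ∀ pv pe : ℝ, 0 < pv → pv ≤ 1 → 0 < pe → pe ≤ 1 → ∀ m : ℕ, 1 ≤ m →
  ∃ c > 0, ∀ n ≥ m + 3, ∀ (x : Vt n) (t : Fin m → Fin n), Function.Injective t →
    c * (1 - pv * pe) ^ (m * n) ≤ Pr (rr pv pe n) (Pend x t)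

/-- PEND2: independence of far away pendant paths. -/
def Pend2Stm : Prop := ∀ (pv pe : ℝ) (m n : ℕ), 1 ≤ m → m + 3 ≤ n → ∀ (x x' : Vt n)
  (t t' : Fin m → Fin n), Function.Injective t → Function.Injective t' →
  2 * m < hammingDist x x' → 2 * m < hammingDist (anti x) x' →
  Pr (rr pv pe n) (Pend x t ∩ Pend x' t') =
    Pr (rr pv pe n) (Pend x t) * Pr (rr pv pe n) (Pend x' t')

/-- PEND3: two different pendant paths are very unlikely. -/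
def Pend3Stm : Prop := ∀ pv pe : ℝ, 0 < pv → pv ≤ 1 → 0 < pe → pe ≤ 1 → ∀ m : ℕ, 1 ≤ m →
  ∀ ρ : ℝ, 1 - pv * pe < ρ → ρ < 1 → ∃ C > 0, ∃ n0 : ℕ, ∀ n ≥ n0, ∀ (x x' : Vt n)
    (t t' : Fin m → Fin n), Function.Injective t → Function.Injective t' → (x, t) ≠ (x', t') →
    Pr (rr pv pe n) (Pend x t ∩ Pend x' t') ≤ C * ρ ^ ((m + 1) * n)

/-- PEND4: pendant paths exist asymptotically almost surely. -/
def Pend4Stm : Prop := ∀ pv pe : ℝ, 0 < pv → pv ≤ 1 → 0 < pe → pe ≤ 1 → ∀ m : ℕ, 1 ≤ m →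
  1 / 2 ≤ (1 - pv * pe) ^ m → (1 - pv * pe) ^ (m + 1) < 1 / 2 →
  Tendsto (fun n => Pr (rr pv pe n) {ω | ∃ (x : Vt n) (t : Fin m → Fin n),
    Function.Injective t ∧ ω ∈ Pend x t}) atTop (𝓝 1)

/-- MAIN: the full theorem. -/
def MainStm : Prop := ∀ pv pe : ℝ, 0 < pv → pv ≤ 1 → 0 < pe → pe ≤ 1 → pv * pe < 1 / 2 →
  Tendsto (fun n => Pr (rr pv pe n)
    {ω | D ω = n + ⌊-1 / Real.logb 2 (1 - pv * pe)⌋₊}) atTop (𝓝 1)

end R467CD
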